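import Pool.Agent.Helper84.OB.Stmts

/-!
# Sheet OB, row MN: the minor
-/

set_option autoImplicit false

universe u

open Set Pool.Agent.Helper84.BT Pool.Agent.Helper84.OB
open scoped Matroid

namespace Pool.Agent.Helper73.OB

/-- a criterion for circuit-hyperplanes -/
theorem ch_of {α : Type u} [Finite α] (N : Matroid α) (A B : Set α) (hE : N.E = A ∪ B)
    (h1 : rk N A + 1 = A.ncard) (h2 : ∀ c ∈ A, rk N (A \ {c}) = rk N A)
    (h3 : rk N A + 1 = rk N N.E) (h4 : ∀ y ∈ B, rk N (insert y A) = rk N A + 1) :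
    IsCircuitHyperplane N A := by
  have hAE : A ⊆ N.E := by rw [hE]; exact subset_union_left
  refine ⟨?_, ?_, ?_⟩
  · rw [Matroid.isCircuit_iff_dep_forall_sdiff_singleton_indep]
    refine ⟨⟨?_, hAE⟩, ?_⟩
    · rw [indep_iff_rk]
      omega
    · intro c hc
      rw [indep_iff_rk, h2 c hc]
      have := Set.ncard_sdiff_singleton_add_one hc (Set.toFinite A)
      omega
  · rw [Matroid.isFlat_iff_closure_eq]
    refine Subset.antisymm ?_ (N.subset_closure A hAE)
    intro y hy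
    by_contra hyA
    have hyE : y ∈ N.E := N.closure_subset_ground A hy
    have hyB : y ∈ B := by
      rw [hE] at hyE
      exact hyE.resolve_left hyA
    have e1 := (mem_closure_iff_rk N hyE).1 hy
    have e2 := h4 y hyB
    omega
  · rw [← N.eRk_ground, ← coe_rk, ← coe_rk, ← h3]
    norm_cast

theorem rz {α : Type u} [Finite α] (M : Matroid α) {X Y H H' : Set α} (h1 : H ⊆ X)
    (h2 : Disjoint H Y) (h3 : H' ⊆ Y) (h5 : rk M (H ∪ Y) = rk M Y + H.ncard)
    (h6 : rk M (H' ∪ X) = rk M X + H'.ncard) :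
    rk M (X ∩ Y ∪ (H ∪ H')) = rk M (X ∩ Y) + H.ncard + H'.ncard := by
  have a1 := rk_union_le_add_ncard M (X ∩ Y) (H ∪ H')
  have a2 := Set.ncard_union_le H H'
  have a3 := rk_submod M (X ∩ Y ∪ (H ∪ H')) Y
  have a4 : rk M (X ∩ Y ∪ H') ≤ rk M ((X ∩ Y ∪ (H ∪ H')) ∩ Y) := by
    refine rk_mono M ?_
    rintro x (hx | hx)
    · exact ⟨Or.inl hx, hx.2⟩
    · exact ⟨Or.inr (Or.inr hx), h3 hx⟩
  have a5 : rk M (H ∪ Y) ≤ rk M (X ∩ Y ∪ (H ∪ H') ∪ Y) := by
    refine rk_mono M ?_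
    rintro x (hx | hx)
    · exact Or.inl (Or.inr (Or.inl hx))
    · exact Or.inr hx
  have a6 := rk_submod M (X ∩ Y ∪ H') X
  have a7 : rk M (X ∩ Y) ≤ rk M ((X ∩ Y ∪ H') ∩ X) :=
    rk_mono M fun x hx => ⟨Or.inl hx, hx.1⟩
  have a8 : rk M (H' ∪ X) ≤ rk M (X ∩ Y ∪ H' ∪ X) := by
    refine rk_mono M ?_
    rintro x (hx | hx)
    · exact Or.inl (Or.inr hx)
    · exact Or.inr hx
  omega

/-- a set of full rank in `X`, together with `T` -/
theorem rw' {α : Type u} [Finite α] (M : Matroid α) {X W T : Set α} (h1 : W ⊆ X)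
    (h2 : rk M W = rk M X) : rk M (W ∪ T) = rk M (T ∪ X) := by
  have a1 := rk_submod M (W ∪ T) X
  have a2 : rk M W ≤ rk M ((W ∪ T) ∩ X) := rk_mono M fun x hx => ⟨Or.inl hx, h1 hx⟩
  have a3 : rk M (T ∪ X) ≤ rk M (W ∪ T ∪ X) := by
    refine rk_mono M ?_
    rintro x (hx | hx)
    · exact Or.inl (Or.inr hx)
    · exact Or.inr hx
  have a4 : rk M (W ∪ T) ≤ rk M (T ∪ X) := by
    refine rk_mono M ?_
    rintro x (hx | hx)
    · exact Or.inr (h1 hx)
    · exact Or.inl hx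
  omega

theorem half {α : Type u} [Finite α] (M N : Matroid α) (X Y C H D H' : Set α)
    (hpos : rk M (X ∪ Y) + rk M (X ∩ Y) < rk M X + rk M Y) (s1 : Side M X Y C H)
    (s2 : Side M Y X D H') (hE : N.E = (C \ H) ∪ (D \ H'))
    (hr : ∀ U ⊆ (C \ H) ∪ (D \ H'),
      rk N U + rk M (X ∩ Y ∪ (H ∪ H')) = rk M (U ∪ (X ∩ Y ∪ (H ∪ H')))) :
    3 ≤ (C \ H).ncard ∧ IsCircuitHyperplane N (C \ H) := by
  obtain ⟨b1, b2, b3, b4, b5, b6, b7, b8, b9⟩ := s1
  obtain ⟨d1, d2, d3, d4, d5, d6, d7, d8, d9⟩ := s2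
  rw [inter_comm Y X] at d4 d5 d6
  rw [union_comm Y X] at d8 d9
  have z := rz M (b1.trans b2) (b3.mono_left b1) (d1.trans d2) b7 d7
  have n1 := Set.ncard_sdiff_add_ncard_of_subset b1
  have hKX : X ∩ Y ⊆ X := inter_subset_left
  -- rank of `C'`
  have c1 : rk M ((C \ H) ∪ (X ∩ Y ∪ (H ∪ H'))) = rk M (H' ∪ X) := by
    have e : (C \ H) ∪ (X ∩ Y ∪ (H ∪ H')) = (C ∪ (X ∩ Y)) ∪ H' := by
      ext x
      simp only [mem_union, mem_sdiff]
      constructor
      · rintro (h | h | h | h)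
        · exact Or.inl (Or.inl h.1)
        · exact Or.inl (Or.inr h)
        · exact Or.inl (Or.inl (b1 h))
        · exact Or.inr h
      · rintro ((h | h) | h)
        · by_cases hx : x ∈ H
          · exact Or.inr (Or.inr (Or.inl hx))
          · exact Or.inl ⟨h, hx⟩
        · exact Or.inr (Or.inl h)
        · exact Or.inr (Or.inr (Or.inr h))
    rw [e]
    exact rw' M (union_subset b2 hKX) b4
  have c2 : ∀ c ∈ C \ H, rk M (((C \ H) \ {c}) ∪ (X ∩ Y ∪ (H ∪ H'))) = rk M (H' ∪ X) := by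
    intro c hc
    have e : ((C \ H) \ {c}) ∪ (X ∩ Y ∪ (H ∪ H')) = ((C \ {c}) ∪ (X ∩ Y)) ∪ H' := by
      ext x
      simp only [mem_union, mem_sdiff, mem_singleton_iff]
      constructor
      · rintro (h | h | h | h)
        · exact Or.inl (Or.inl ⟨h.1.1, h.2⟩)
        · exact Or.inl (Or.inr h)
        · refine Or.inl (Or.inl ⟨b1 h, ?_⟩)
          rintro rfl
          exact hc.2 h
        · exact Or.inr h
      · rintro ((h | h) | h)
        · by_cases hx : x ∈ H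
          · exact Or.inr (Or.inr (Or.inl hx))
          · exact Or.inl ⟨⟨h.1, hx⟩, h.2⟩
        · exact Or.inr (Or.inl h)
        · exact Or.inr (Or.inr (Or.inr h))
    rw [e]
    exact rw' M (union_subset (sdiff_subset.trans b2) hKX) (b6 c hc.1)
  have c3 : ∀ y ∈ D \ H', rk M (insert y (C \ H) ∪ (X ∩ Y ∪ (H ∪ H'))) = rk M (X ∪ Y) := by
    intro y hy
    have e : insert y (C \ H) ∪ (X ∩ Y ∪ (H ∪ H')) = (C ∪ (X ∩ Y)) ∪ (insert y H') := by
      ext x
      simp only [mem_union, mem_sdiff, mem_insert_iff]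
      constructor
      · rintro ((h | h) | h | h | h)
        · exact Or.inr (Or.inl h)
        · exact Or.inl (Or.inl h.1)
        · exact Or.inl (Or.inr h)
        · exact Or.inl (Or.inl (b1 h))
        · exact Or.inr (Or.inr h)
      · rintro ((h | h) | h | h)
        · by_cases hx : x ∈ H
          · exact Or.inr (Or.inr (Or.inl hx))
          · exact Or.inl (Or.inr ⟨h, hx⟩)
        · exact Or.inr (Or.inl h)
        · exact Or.inl (Or.inl h)
        · exact Or.inr (Or.inr (Or.inr h))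
    rw [e, rw' M (union_subset b2 hKX) b4, insert_union]
    exact d9 y hy
  have c4 : rk M ((C \ H) ∪ (D \ H') ∪ (X ∩ Y ∪ (H ∪ H'))) = rk M (X ∪ Y) := by
    have e : (C \ H) ∪ (D \ H') ∪ (X ∩ Y ∪ (H ∪ H')) = (C ∪ (X ∩ Y)) ∪ D := by
      ext x
      simp only [mem_union, mem_sdiff]
      constructor
      · rintro ((h | h) | h | h | h)
        · exact Or.inl (Or.inl h.1)
        · exact Or.inr h.1
        · exact Or.inl (Or.inr h)
        · exact Or.inl (Or.inl (b1 h))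
        · exact Or.inr (d1 h)
      · rintro ((h | h) | h)
        · by_cases hx : x ∈ H
          · exact Or.inr (Or.inr (Or.inl hx))
          · exact Or.inl (Or.inl ⟨h, hx⟩)
        · exact Or.inr (Or.inl h)
        · by_cases hx : x ∈ H'
          · exact Or.inr (Or.inr (Or.inr hx))
          · exact Or.inl (Or.inr ⟨h, hx⟩)
    have e2 : D ∪ X = (D ∪ (X ∩ Y)) ∪ X := by
      rw [union_assoc, union_eq_self_of_subset_left hKX]
    rw [e, rw' M (union_subset b2 hKX) b4, e2,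
      rw' M (union_subset d2 inter_subset_right) d4]
  have r1 := hr (C \ H) subset_union_left
  have r2 : ∀ c ∈ C \ H, rk N ((C \ H) \ {c}) + rk M (X ∩ Y ∪ (H ∪ H')) = rk M (H' ∪ X) := by
    intro c hc
    rw [hr _ (sdiff_subset.trans subset_union_left), c2 c hc]
  have r3 : ∀ y ∈ D \ H', rk N (insert y (C \ H)) + rk M (X ∩ Y ∪ (H ∪ H')) =
      rk M (X ∪ Y) := by
    intro y hy
    rw [hr _ (insert_subset (Or.inr hy) subset_union_left), c3 y hy]
  have r4 := hr _ Subset.rfl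
  rw [c1] at r1
  rw [c4, ← hE] at r4
  refine ⟨by omega, ch_of N (C \ H) (D \ H') hE (by omega) (fun c hc => ?_) (by omega)
    fun y hy => ?_⟩
  · have := r2 c hc
    omega
  · have := r3 y hy
    omega

theorem st_MN (h1 : ST_RM.{u}) : ST_MN.{u} := by
  intro α _ M X Y C H D H' hX hY hpos s1 s2
  have s1' := s1
  have s2' := s2
  obtain ⟨b1, b2, b3, b4, b5, b6, b7, b8, b9⟩ := s1'
  obtain ⟨d1, d2, d3, d4, d5, d6, d7, d8, d9⟩ := s2'
  have hXE := hX.subset_ground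
  have hYE := hY.subset_ground
  have hZ : X ∩ Y ∪ (H ∪ H') ⊆ M.E := union_subset (inter_subset_left.trans hXE)
    (union_subset ((b1.trans b2).trans hXE) ((d1.trans d2).trans hYE))
  have hG : (C \ H) ∪ (D \ H') ⊆ M.E := union_subset ((sdiff_subset.trans b2).trans hXE)
    ((sdiff_subset.trans d2).trans hYE)
  have hCD : Disjoint C D := b3.mono_right d2
  have hZG : Disjoint (X ∩ Y ∪ (H ∪ H')) ((C \ H) ∪ (D \ H')) := by
    rw [Set.disjoint_left]
    rintro x (hx | hx | hx) (h | h)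
    · exact (Set.disjoint_left.1 b3) h.1 hx.2
    · exact (Set.disjoint_left.1 d3) h.1 hx.1
    · exact h.2 hx
    · exact (Set.disjoint_left.1 hCD) (b1 hx) h.1
    · exact (Set.disjoint_left.1 hCD) h.1 (d1 hx)
    · exact h.2 hx
  have hr : ∀ U ⊆ (C \ H) ∪ (D \ H'),
      rk ((M ／ (X ∩ Y ∪ (H ∪ H'))) ↾ ((C \ H) ∪ (D \ H'))) U + rk M (X ∩ Y ∪ (H ∪ H')) =
        rk M (U ∪ (X ∩ Y ∪ (H ∪ H'))) := fun U hU => h1 α M _ _ U hZ hG hZG hU
  have hE : ((M ／ (X ∩ Y ∪ (H ∪ H'))) ↾ ((C \ H) ∪ (D \ H'))).E = (C \ H) ∪ (D \ H') := rfl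
  obtain ⟨t1, t2⟩ := half M _ X Y C H D H' hpos s1 s2 hE hr
  obtain ⟨t3, t4⟩ := half M ((M ／ (X ∩ Y ∪ (H ∪ H'))) ↾ ((C \ H) ∪ (D \ H'))) Y X D H' C H
    (by rw [union_comm Y X, inter_comm Y X]; omega) s2 s1 (by rw [hE, union_comm])
    (fun U hU => by
      rw [inter_comm Y X, union_comm H' H]
      exact hr U (by rw [union_comm]; exact hU))
  refine ⟨_, C \ H, D \ H', ?_, ?_, hE.symm, ?_, t2, t4⟩
  · have hsub : (C \ H) ∪ (D \ H') ⊆ (M ／ (X ∩ Y ∪ (H ∪ H'))).E := by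
      rw [Matroid.contract_ground]
      exact fun x hx => ⟨hG hx, fun hz => (Set.disjoint_left.1 hZG) hz hx⟩
    rw [← Matroid.delete_compl hsub]
    exact Matroid.contract_delete_isMinor M _ _
  · exact hCD.mono sdiff_subset sdiff_subset
  · rw [← Set.Finite.cast_ncard_eq (Set.toFinite (C \ H))]
    exact_mod_cast t1

end Pool.Agent.Helper73.OB
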